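import Pool.Agent.EX61.Ratio

/-!
Exactness of the induced metric on a finite group (Q1) for every finite subset of a free group on
which the metric takes values within a factor of two.
-/

namespace Pool.Agent.Results.MP_5aaf24_al.RatioTwo

open Pool.Agent.EX61

/-- Let `F_k` be a free group of finite rank, `ρ` a bi-invariant metric on it and `A ⊆ F_k` finite
such that every distance between points of `A` is at most twice every non-zero distance between
points of `A`. Then the exactness asked for in Q1 holds for `(ρ, A)`. -/
theorem result (k : ℕ) (ρ : FreeGroup (Fin k) → FreeGroup (Fin k) → ℝ) (hρ : BiInvMetric ρ)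
    (A : Finset (FreeGroup (Fin k)))
    (hA : ∀ a ∈ A, ∀ b ∈ A, ∀ p ∈ A, ∀ q ∈ A, p ≠ q → ρ a b ≤ 2 * ρ p q) :
    Exact ρ A :=
  exact_of_ratio hρ A hA

end Pool.Agent.Results.MP_5aaf24_al.RatioTwo
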