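import Pool.Agent.EX61.Main

/-!
Exactness of the induced metric on a finite group (Q1) for every finite subset of a free group
whose product relations are trivial or lie in at most three cyclic subgroups.
-/

namespace Pool.Agent.Results.MP_5aaf24_al.ThreeCyclic

open Pool.Agent.EX61

/-- Let `F_k` be a free group of finite rank, `ρ` a bi-invariant metric on it, and `w_1, w_2, w_3`
elements generating cyclic subgroups with pairwise trivial intersection (`w_i = 1` is allowed).
For every finite `A ⊆ F_k` all of whose product relations `a b = c` (`a, b, c ∈ A`) are trivial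
(`a = 1`, `b = 1` or `c = 1`) or lie in one of the three cyclic subgroups, the exactness asked for
in Q1 holds, even with a finite abelian group. -/
theorem result (k : ℕ) (ρ : FreeGroup (Fin k) → FreeGroup (Fin k) → ℝ) (hρ : BiInvMetric ρ)
    (w : Fin 3 → FreeGroup (Fin k))
    (hw : ∀ i j, i ≠ j → Subgroup.zpowers (w i) ⊓ Subgroup.zpowers (w j) = ⊥)
    (A : Finset (FreeGroup (Fin k)))
    (hA : ∀ a ∈ A, ∀ b ∈ A, a * b ∈ A → a = 1 ∨ b = 1 ∨ a * b = 1 ∨
      ∃ i, a ∈ Subgroup.zpowers (w i) ∧ b ∈ Subgroup.zpowers (w i)) :
    ExactAbelian ρ A :=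
  main hρ w hw A hA

end Pool.Agent.Results.MP_5aaf24_al.ThreeCyclic
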